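import Mathlib

set_option autoImplicit false

/-!
# Project AL (helper72), job AAL (helper123): a limit of smoothed logarithmic averages

`(s n)` a sequence in `[0, 1]` with `|∑_{n < N} s n - c N| ≤ 5 √N`, `φ` nonnegative, Lipschitz, integrable and
tending to `0` at `∞`: `∑ s n φ (v - log (n+1)) / (n+1) → c ∫ φ` for `v → ∞`.
-/

open Filter Topology MeasureTheory Set

namespace Pool.Agent.Q123.AL

/-- `log (n + 1)` -/
noncomputable def lo (n : ℕ) : ℝ := Real.log ((n : ℝ) + 1)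

/-- the step -/
noncomputable def de (n : ℕ) : ℝ := lo (n + 1) - lo n

theorem lo_zero : lo 0 = 0 := by
  unfold lo
  simp

theorem de_le (n : ℕ) : de n ≤ 1 / ((n : ℝ) + 1) := by
  have h0 : (0 : ℝ) < (n : ℝ) + 1 := by positivity
  have h1 : (0 : ℝ) < (n : ℝ) + 1 + 1 := by positivity
  unfold de lo
  push_cast
  rw [← Real.log_div h1.ne' h0.ne']
  refine (Real.log_le_sub_one_of_pos (by positivity)).trans (le_of_eq ?_)
  field_simp
  ring

theorem le_de (n : ℕ) : 1 / ((n : ℝ) + 2) ≤ de n := by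
  have h0 : (0 : ℝ) < (n : ℝ) + 1 := by positivity
  have h1 : (0 : ℝ) < (n : ℝ) + 1 + 1 := by positivity
  have h2 := Real.log_le_sub_one_of_pos (x := ((n : ℝ) + 1) / ((n : ℝ) + 1 + 1)) (by positivity)
  rw [Real.log_div h0.ne' h1.ne'] at h2
  have h3 : ((n : ℝ) + 1) / ((n : ℝ) + 1 + 1) - 1 = -(1 / ((n : ℝ) + 2)) := by
    field_simp
    ring
  rw [h3] at h2
  unfold de lo
  push_cast
  linarith

theorem de_nonneg (n : ℕ) : 0 ≤ de n := le_trans (by positivity) (le_de n)

theorem gap_le (n : ℕ) : 1 / ((n : ℝ) + 1) - 1 / ((n : ℝ) + 2) ≤ 1 / ((n : ℝ) + 1) ^ 2 := by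
  have h0 : (0 : ℝ) < (n : ℝ) + 1 := by positivity
  have h1 : (0 : ℝ) < (n : ℝ) + 2 := by positivity
  rw [div_sub_div _ _ h0.ne' h1.ne', div_le_div_iff₀ (by positivity) (by positivity)]
  nlinarith

theorem lo_atTop : Tendsto lo atTop atTop := by
  unfold lo
  exact Real.tendsto_log_atTop.comp (tendsto_natCast_atTop_atTop.atTop_add tendsto_const_nhds)

section

variable (φ : ℝ → ℝ)

/-- the terms -/
noncomputable def HH (v : ℝ) (n : ℕ) : ℝ := φ (v - lo n) / ((n : ℝ) + 1)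

/-- the integrals -/
noncomputable def JJ (v : ℝ) (n : ℕ) : ℝ := ∫ x in (v - lo (n + 1))..(v - lo n), φ x

variable {φ}

theorem cont_of_lip (hL : ∀ x y, |φ x - φ y| ≤ |x - y|) : Continuous φ := by
  have : LipschitzWith 1 φ := LipschitzWith.of_dist_le_mul fun x y => by
    rw [Real.dist_eq, Real.dist_eq, NNReal.coe_one, one_mul]
    exact hL x y
  exact this.continuous

theorem JJ_sub (hL : ∀ x y, |φ x - φ y| ≤ |x - y|) (v : ℝ) (n : ℕ) :
    |JJ φ v n - de n * φ (v - lo n)| ≤ de n * de n := by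
  have hc := cont_of_lip hL
  have h1 : JJ φ v n - de n * φ (v - lo n) =
      ∫ x in (v - lo (n + 1))..(v - lo n), (φ x - φ (v - lo n)) := by
    rw [intervalIntegral.integral_sub (hc.intervalIntegrable _ _) (by simp),
      intervalIntegral.integral_const, smul_eq_mul]
    unfold JJ de
    ring
  rw [h1]
  have hle : v - lo (n + 1) ≤ v - lo n := by
    have := de_nonneg n
    unfold de at this
    linarith
  have h2 := intervalIntegral.norm_integral_le_of_norm_le_const (f := fun x => φ x - φ (v - lo n))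
    (C := de n) (a := v - lo (n + 1)) (b := v - lo n) (by
      intro x hx
      rw [uIoc_of_le hle] at hx
      rw [Real.norm_eq_abs]
      refine (hL _ _).trans ?_
      rw [abs_le]
      unfold de
      constructor
      · linarith [hx.1]
      · linarith [hx.2, de_nonneg n, show de n = lo (n + 1) - lo n from rfl])
  rw [Real.norm_eq_abs] at h2
  refine h2.trans (le_of_eq ?_)
  have h3 : v - lo n - (v - lo (n + 1)) = de n := by
    unfold de
    ring
  rw [h3, abs_of_nonneg (de_nonneg n)]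

theorem HJ_le (h0 : ∀ x, 0 ≤ φ x) (h1 : ∀ x, φ x ≤ 1) (hL : ∀ x y, |φ x - φ y| ≤ |x - y|)
    (v : ℝ) (n : ℕ) : |HH φ v n - JJ φ v n| ≤ 2 / ((n : ℝ) + 1) ^ 2 := by
  have a := JJ_sub hL v n
  have b : |HH φ v n - de n * φ (v - lo n)| ≤ 1 / ((n : ℝ) + 1) ^ 2 := by
    have e : HH φ v n - de n * φ (v - lo n) = (1 / ((n : ℝ) + 1) - de n) * φ (v - lo n) := by
      unfold HH
      ring
    rw [e, abs_mul, abs_of_nonneg (h0 _), abs_of_nonneg (by linarith [de_le n])]
    calc (1 / ((n : ℝ) + 1) - de n) * φ (v - lo n) ≤ (1 / ((n : ℝ) + 1) - de n) * 1 :=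
          mul_le_mul_of_nonneg_left (h1 _) (by linarith [de_le n])
      _ ≤ 1 / ((n : ℝ) + 1) ^ 2 := by linarith [le_de n, gap_le n]
  have c : de n * de n ≤ 1 / ((n : ℝ) + 1) ^ 2 := by
    calc de n * de n ≤ (1 / ((n : ℝ) + 1)) * (1 / ((n : ℝ) + 1)) :=
          mul_le_mul (de_le n) (de_le n) (de_nonneg n) (by positivity)
      _ = 1 / ((n : ℝ) + 1) ^ 2 := by
          rw [sq]
          field_simp
  have d : HH φ v n - JJ φ v n = (HH φ v n - de n * φ (v - lo n)) -
      (JJ φ v n - de n * φ (v - lo n)) := by ring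
  rw [d]
  refine (abs_sub _ _).trans ?_
  have : (2 : ℝ) / ((n : ℝ) + 1) ^ 2 = 1 / ((n : ℝ) + 1) ^ 2 + 1 / ((n : ℝ) + 1) ^ 2 := by ring
  linarith

theorem HH_sub_le (h0 : ∀ x, 0 ≤ φ x) (h1 : ∀ x, φ x ≤ 1) (hL : ∀ x y, |φ x - φ y| ≤ |x - y|)
    (v : ℝ) (n : ℕ) : |HH φ v n - HH φ v (n + 1)| ≤ 2 / ((n : ℝ) + 1) ^ 2 := by
  have p0 : (0 : ℝ) < (n : ℝ) + 1 := by positivity
  have p1 : (0 : ℝ) < (n : ℝ) + 2 := by positivity
  have e : HH φ v n - HH φ v (n + 1) = (1 / ((n : ℝ) + 1) - 1 / ((n : ℝ) + 2)) * φ (v - lo n) +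
      1 / ((n : ℝ) + 2) * (φ (v - lo n) - φ (v - lo (n + 1))) := by
    unfold HH
    push_cast
    rw [show (n : ℝ) + 1 + 1 = n + 2 by ring]
    ring
  have g0 : 0 ≤ 1 / ((n : ℝ) + 1) - 1 / ((n : ℝ) + 2) := by
    rw [sub_nonneg]
    exact one_div_le_one_div_of_le p0 (by linarith)
  have a : |(1 / ((n : ℝ) + 1) - 1 / ((n : ℝ) + 2)) * φ (v - lo n)| ≤ 1 / ((n : ℝ) + 1) ^ 2 := by
    rw [abs_mul, abs_of_nonneg (h0 _), abs_of_nonneg g0]
    calc _ ≤ (1 / ((n : ℝ) + 1) - 1 / ((n : ℝ) + 2)) * 1 := mul_le_mul_of_nonneg_left (h1 _) g0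
      _ ≤ _ := by linarith [gap_le n]
  have b : |1 / ((n : ℝ) + 2) * (φ (v - lo n) - φ (v - lo (n + 1)))| ≤ 1 / ((n : ℝ) + 1) ^ 2 := by
    rw [abs_mul, abs_of_nonneg (by positivity)]
    have h2 : |φ (v - lo n) - φ (v - lo (n + 1))| ≤ 1 / ((n : ℝ) + 1) := by
      refine (hL _ _).trans ?_
      have : v - lo n - (v - lo (n + 1)) = de n := by
        unfold de
        ring
      rw [this, abs_of_nonneg (de_nonneg n)]
      exact de_le n
    have h3 : 1 / ((n : ℝ) + 2) ≤ 1 / ((n : ℝ) + 1) := one_div_le_one_div_of_le p0 (by linarith)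
    calc 1 / ((n : ℝ) + 2) * |φ (v - lo n) - φ (v - lo (n + 1))| ≤
        1 / ((n : ℝ) + 1) * (1 / ((n : ℝ) + 1)) :=
          mul_le_mul h3 h2 (abs_nonneg _) (by positivity)
      _ = 1 / ((n : ℝ) + 1) ^ 2 := by
          rw [sq]
          field_simp
  rw [e]
  refine (abs_add_le _ _).trans ?_
  have : (2 : ℝ) / ((n : ℝ) + 1) ^ 2 = 1 / ((n : ℝ) + 1) ^ 2 + 1 / ((n : ℝ) + 1) ^ 2 := by ring
  linarith

theorem summable_sq : Summable fun n : ℕ => 2 / ((n : ℝ) + 1) ^ 2 := by
  have h : Summable fun n : ℕ => 1 / ((n : ℝ)) ^ 2 := Real.summable_one_div_nat_pow.2 (by norm_num)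
  have h1 := ((summable_nat_add_iff 1).2 h).mul_left 2
  refine h1.congr fun n => ?_
  push_cast
  ring

theorem summable_32 : Summable fun n : ℕ => 10 * ((n : ℝ) + 1) ^ (-(3 / 2) : ℝ) := by
  have h : Summable fun n : ℕ => (n : ℝ) ^ (-(3 / 2) : ℝ) := Real.summable_nat_rpow.2 (by norm_num)
  have h1 := ((summable_nat_add_iff 1).2 h).mul_left 10
  refine h1.congr fun n => ?_
  push_cast
  rfl

theorem HH_lim (hlim : Tendsto φ atTop (𝓝 0)) (n : ℕ) : Tendsto (fun v => HH φ v n) atTop (𝓝 0) := by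
  have h1 : Tendsto (fun v : ℝ => v - lo n) atTop atTop :=
    tendsto_atTop_add_const_right _ _ tendsto_id
  have h2 := (hlim.comp h1).div_const ((n : ℝ) + 1)
  rw [zero_div] at h2
  exact h2

theorem Iic_lim (hint : Integrable φ) : Tendsto (fun v : ℝ => ∫ x in Iic v, φ x) atTop
    (𝓝 (∫ x, φ x)) :=
  (aecover_Iic tendsto_id).integral_tendsto_of_countably_generated hint

theorem JJ_eq (hint : Integrable φ) (v : ℝ) (n : ℕ) :
    JJ φ v n = (∫ x in Iic (v - lo n), φ x) - ∫ x in Iic (v - lo (n + 1)), φ x := by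
  rw [intervalIntegral.integral_Iic_sub_Iic hint.integrableOn hint.integrableOn]
  rfl

theorem JJ_lim (hint : Integrable φ) (n : ℕ) : Tendsto (fun v => JJ φ v n) atTop (𝓝 0) := by
  have h1 : ∀ m : ℕ, Tendsto (fun v : ℝ => ∫ x in Iic (v - lo m), φ x) atTop (𝓝 (∫ x, φ x)) :=
    fun m => (Iic_lim hint).comp (tendsto_atTop_add_const_right _ _ tendsto_id)
  have h2 := (h1 n).sub (h1 (n + 1))
  rw [sub_self] at h2
  exact h2.congr fun v => (JJ_eq hint v n).symm

theorem JJ_sum (h0 : ∀ x, 0 ≤ φ x) (hint : Integrable φ) (v : ℝ) :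
    HasSum (JJ φ v) (∫ x in Iic v, φ x) := by
  rw [hasSum_iff_tendsto_nat_of_nonneg]
  · have h1 : ∀ N : ℕ, ∑ n ∈ Finset.range N, JJ φ v n = ∫ x in (v - lo N)..v, φ x := by
      intro N
      have h2 : ∀ M : ℕ, ∑ n ∈ Finset.range M, JJ φ v n =
          (∫ x in Iic (v - lo 0), φ x) - ∫ x in Iic (v - lo M), φ x := by
        intro M
        induction M with
        | zero => simp
        | succ k ih =>
          rw [Finset.sum_range_succ, ih, JJ_eq hint]
          ring
      rw [h2, lo_zero, sub_zero,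
        intervalIntegral.integral_Iic_sub_Iic hint.integrableOn hint.integrableOn]
    simp only [h1]
    refine intervalIntegral_tendsto_integral_Iic v hint.integrableOn ?_
    have h3 : Tendsto (fun N => -lo N) atTop atBot := tendsto_neg_atTop_atBot.comp lo_atTop
    exact (tendsto_atBot_add_const_left _ v h3).congr fun N => by ring
  · intro n
    unfold JJ
    refine intervalIntegral.integral_nonneg ?_ fun x _ => h0 x
    have := de_nonneg n
    unfold de at this
    linarith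

theorem HH_summable (h0 : ∀ x, 0 ≤ φ x) (h1 : ∀ x, φ x ≤ 1) (hL : ∀ x y, |φ x - φ y| ≤ |x - y|)
    (hint : Integrable φ) (v : ℝ) : Summable (HH φ v) := by
  have a : Summable fun n => HH φ v n - JJ φ v n :=
    Summable.of_norm_bounded summable_sq fun n => by
      rw [Real.norm_eq_abs]
      exact HJ_le h0 h1 hL v n
  have b := a.add (JJ_sum h0 hint v).summable
  exact b.congr fun n => by ring

theorem HH_tsum_lim (h0 : ∀ x, 0 ≤ φ x) (h1 : ∀ x, φ x ≤ 1) (hL : ∀ x y, |φ x - φ y| ≤ |x - y|)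
    (hint : Integrable φ) (hlim : Tendsto φ atTop (𝓝 0)) :
    Tendsto (fun v => ∑' n, HH φ v n) atTop (𝓝 (∫ x, φ x)) := by
  have a : Tendsto (fun v => ∑' n, (HH φ v n - JJ φ v n)) atTop (𝓝 (∑' _n : ℕ, (0 : ℝ))) := by
    refine tendsto_tsum_of_dominated_convergence summable_sq (fun n => ?_)
      (Eventually.of_forall fun v n => ?_)
    · have := (HH_lim hlim n).sub (JJ_lim hint n)
      rwa [sub_zero] at this
    · rw [Real.norm_eq_abs]
      exact HJ_le h0 h1 hL v n
  rw [tsum_zero] at a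
  have b := a.add (Iic_lim hint)
  rw [zero_add] at b
  refine b.congr fun v => ?_
  rw [← (JJ_sum h0 hint v).tsum_eq,
    (HH_summable h0 h1 hL hint v).tsum_sub (JJ_sum h0 hint v).summable]
  ring

end

/-- the error term -/
noncomputable def EE (s : ℕ → ℝ) (c : ℝ) (N : ℕ) : ℝ := ∑ n ∈ Finset.range N, s n - c * N

theorem parts (s : ℕ → ℝ) (c : ℝ) (H : ℕ → ℝ) (N : ℕ) :
    ∑ n ∈ Finset.range N, (s n - c) * H n = EE s c N * H N +
      ∑ n ∈ Finset.range N, EE s c (n + 1) * (H n - H (n + 1)) := by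
  induction N with
  | zero => simp [EE]
  | succ k ih =>
    rw [Finset.sum_range_succ, Finset.sum_range_succ, ih]
    have : EE s c (k + 1) = EE s c k + (s k - c) := by
      unfold EE
      rw [Finset.sum_range_succ]
      push_cast
      ring
    rw [this]
    ring

theorem main {φ : ℝ → ℝ} (h0 : ∀ x, 0 ≤ φ x) (h1 : ∀ x, φ x ≤ 1)
    (hL : ∀ x y, |φ x - φ y| ≤ |x - y|) (hint : Integrable φ) (hlim : Tendsto φ atTop (𝓝 0))
    {s : ℕ → ℝ} (hs0 : ∀ n, 0 ≤ s n) (hs1 : ∀ n, s n ≤ 1) {c : ℝ}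
    (hE : ∀ N : ℕ, |EE s c N| ≤ 5 * √N) :
    Tendsto (fun v => ∑' n : ℕ, s n * HH φ v n) atTop (𝓝 (c * ∫ x, φ x)) := by
  have hH0 : ∀ v n, 0 ≤ HH φ v n := fun v n => div_nonneg (h0 _) (by positivity)
  have hsH : ∀ v, Summable fun n => s n * HH φ v n := fun v =>
    Summable.of_nonneg_of_le (fun n => mul_nonneg (hs0 n) (hH0 v n))
      (fun n => by
        calc s n * HH φ v n ≤ 1 * HH φ v n := mul_le_mul_of_nonneg_right (hs1 n) (hH0 v n)
          _ = HH φ v n := one_mul _) (HH_summable h0 h1 hL hint v)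
  have hcH : ∀ v, Summable fun n => c * HH φ v n := fun v => (HH_summable h0 h1 hL hint v).mul_left c
  have hbd : ∀ v n, ‖EE s c (n + 1) * (HH φ v n - HH φ v (n + 1))‖ ≤
      10 * ((n : ℝ) + 1) ^ (-(3 / 2) : ℝ) := by
    intro v n
    have p0 : (0 : ℝ) < (n : ℝ) + 1 := by positivity
    rw [norm_mul, Real.norm_eq_abs, Real.norm_eq_abs]
    calc |EE s c (n + 1)| * |HH φ v n - HH φ v (n + 1)| ≤
        (5 * √((n + 1 : ℕ) : ℝ)) * (2 / ((n : ℝ) + 1) ^ 2) :=
          mul_le_mul (hE _) (HH_sub_le h0 h1 hL v n) (abs_nonneg _) (by positivity)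
      _ = 10 * ((n : ℝ) + 1) ^ (-(3 / 2) : ℝ) := by
          have e : ((n : ℝ) + 1) ^ (-(3 / 2) : ℝ) = √((n : ℝ) + 1) / ((n : ℝ) + 1) ^ 2 := by
            rw [Real.sqrt_eq_rpow, ← Real.rpow_natCast, ← Real.rpow_sub p0]
            norm_num
          rw [e]
          push_cast
          ring
  have hT : Tendsto (fun v => ∑' n, EE s c (n + 1) * (HH φ v n - HH φ v (n + 1))) atTop (𝓝 0) := by
    have a : Tendsto (fun v => ∑' n, EE s c (n + 1) * (HH φ v n - HH φ v (n + 1))) atTop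
        (𝓝 (∑' _n : ℕ, (0 : ℝ))) := by
      refine tendsto_tsum_of_dominated_convergence summable_32 (fun n => ?_)
        (Eventually.of_forall fun v n => hbd v n)
      have := ((HH_lim hlim n).sub (HH_lim hlim (n + 1))).const_mul (EE s c (n + 1))
      rwa [sub_zero, mul_zero] at this
    rwa [tsum_zero] at a
  have heq : ∀ v, ∑' n, (s n * HH φ v n - c * HH φ v n) =
      ∑' n, EE s c (n + 1) * (HH φ v n - HH φ v (n + 1)) := by
    intro v
    have a := ((hsH v).sub (hcH v)).hasSum.tendsto_sum_nat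
    have b := (Summable.of_norm_bounded summable_32 (hbd v)).hasSum.tendsto_sum_nat
    have d : Tendsto (fun N : ℕ => EE s c N * HH φ v N) atTop (𝓝 0) := by
      have hz : Tendsto (fun N : ℕ => 5 * (1 / √(N : ℝ))) atTop (𝓝 0) := by
        have h2 : Tendsto (fun N : ℕ => √(N : ℝ)) atTop atTop :=
          Real.tendsto_sqrt_atTop.comp tendsto_natCast_atTop_atTop
        have h3 := (h2.inv_tendsto_atTop).const_mul (5 : ℝ)
        rw [mul_zero] at h3
        refine h3.congr fun N => ?_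
        rw [one_div]
        rfl
      refine squeeze_zero_norm' ?_ hz
      filter_upwards [eventually_ge_atTop 1] with N hN
      have hN' : (0 : ℝ) < N := by exact_mod_cast hN
      rw [norm_mul, Real.norm_eq_abs, Real.norm_eq_abs, abs_of_nonneg (hH0 v N)]
      have h4 : HH φ v N ≤ 1 / (N : ℝ) := by
        unfold HH
        exact div_le_div₀ (by norm_num) (h1 _) hN' (by linarith)
      calc |EE s c N| * HH φ v N ≤ (5 * √(N : ℝ)) * (1 / (N : ℝ)) :=
            mul_le_mul (hE N) h4 (hH0 v N) (by positivity)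
        _ = 5 * (1 / √(N : ℝ)) := by
            have h5 : (N : ℝ) = √(N : ℝ) * √(N : ℝ) := (Real.mul_self_sqrt hN'.le).symm
            have h6 : √(N : ℝ) ≠ 0 := (Real.sqrt_pos.2 hN').ne'
            conv_lhs => rw [h5]
            rw [Real.sqrt_mul_self (Real.sqrt_nonneg _)]
            field_simp
    have f := d.add b
    rw [zero_add] at f
    refine tendsto_nhds_unique a (f.congr fun N => ?_)
    rw [← parts]
    refine Finset.sum_congr rfl fun n _ => ?_
    ring
  have hR := (HH_tsum_lim h0 h1 hL hint hlim).const_mul c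
  have g := hT.add hR
  rw [zero_add] at g
  refine g.congr fun v => ?_
  rw [← heq v, (hsH v).tsum_sub (hcH v), tsum_mul_left]
  ring

end Pool.Agent.Q123.AL
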