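import Pool.Agent.Q72.AL.Stm3
import Pool.Agent.Q163.GC.Sqf
import Pool.Agent.Q123.AL.Lim

set_option autoImplicit false

/-!
# Project AL (helper72), job AAL (helper123): the diagonal mean square has a limit
-/

open Filter Topology MeasureTheory Set

namespace Pool.Agent.Q123.AL

open Pool.Agent.Q72.AL

/-- the square of the Gaussian kernel -/
noncomputable def ph (x : ℝ) : ℝ := gg 2 x ^ 2

/-- the constant -/
noncomputable def c0 : ℝ := ((2 * Real.sqrt (Real.pi * 2))⁻¹) ^ 2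

theorem c0_nonneg : 0 ≤ c0 := sq_nonneg _

theorem c0_le : c0 ≤ 1 := by
  unfold c0
  have h1 : (1 : ℝ) ≤ 2 * Real.sqrt (Real.pi * 2) := by
    have h2 : (1 : ℝ) ≤ Real.sqrt (Real.pi * 2) := by
      rw [Real.one_le_sqrt]
      linarith [Real.pi_gt_three]
    linarith
  have h3 : (2 * Real.sqrt (Real.pi * 2))⁻¹ ≤ 1 := inv_le_one_of_one_le₀ h1
  exact pow_le_one₀ (by positivity) h3

theorem ph_eq (x : ℝ) : ph x = c0 * Real.exp (-(x ^ 2 / 4)) := by
  unfold ph gg c0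
  rw [mul_pow, ← Real.exp_nat_mul]
  congr 2
  push_cast
  ring

theorem ph_nonneg (x : ℝ) : 0 ≤ ph x := sq_nonneg _

theorem ph_le (x : ℝ) : ph x ≤ 1 := by
  rw [ph_eq]
  have h1 : Real.exp (-(x ^ 2 / 4)) ≤ 1 := Real.exp_le_one_iff.2 (by nlinarith [sq_nonneg x])
  calc c0 * Real.exp (-(x ^ 2 / 4)) ≤ 1 * 1 :=
        mul_le_mul c0_le h1 (Real.exp_pos _).le zero_le_one
    _ = 1 := one_mul 1

theorem ph_deriv (x : ℝ) : HasDerivAt ph (c0 * (Real.exp (-(x ^ 2 / 4)) * -(x / 2))) x := by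
  have h : ph = fun x => c0 * Real.exp (-(x ^ 2 / 4)) := funext ph_eq
  rw [h]
  have h1 : HasDerivAt (fun x : ℝ => -(x ^ 2 / 4)) (-(x / 2)) x := by
    have := ((hasDerivAt_pow 2 x).div_const 4).neg
    refine this.congr_deriv ?_
    push_cast
    ring
  exact (h1.exp).const_mul c0

theorem ph_deriv_le (x : ℝ) : ‖c0 * (Real.exp (-(x ^ 2 / 4)) * -(x / 2))‖ ≤ 1 := by
  rw [norm_mul, norm_mul, Real.norm_eq_abs, Real.norm_eq_abs, Real.norm_eq_abs, abs_neg,
    abs_of_nonneg c0_nonneg, abs_of_pos (Real.exp_pos _)]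
  have h1 : |x / 2| ≤ Real.exp (x ^ 2 / 4) := by
    have h2 := Real.add_one_le_exp (x ^ 2 / 4)
    have h3 : |x / 2| ≤ x ^ 2 / 4 + 1 := by
      have h4 : x ^ 2 / 4 = |x / 2| ^ 2 := by
        rw [sq_abs]
        ring
      rw [h4]
      nlinarith [sq_nonneg (|x / 2| - 1), abs_nonneg (x / 2)]
    linarith
  have h5 : Real.exp (-(x ^ 2 / 4)) * |x / 2| ≤ 1 := by
    calc Real.exp (-(x ^ 2 / 4)) * |x / 2| ≤ Real.exp (-(x ^ 2 / 4)) * Real.exp (x ^ 2 / 4) :=
          mul_le_mul_of_nonneg_left h1 (Real.exp_pos _).le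
      _ = 1 := by rw [← Real.exp_add, neg_add_cancel, Real.exp_zero]
  calc c0 * (Real.exp (-(x ^ 2 / 4)) * |x / 2|) ≤ 1 * 1 :=
        mul_le_mul c0_le h5 (by positivity) zero_le_one
    _ = 1 := one_mul 1

theorem ph_lip (x y : ℝ) : |ph x - ph y| ≤ |x - y| := by
  have h := Convex.norm_image_sub_le_of_norm_hasDerivWithin_le (f := ph)
    (f' := fun x => c0 * (Real.exp (-(x ^ 2 / 4)) * -(x / 2))) (s := Set.univ) (C := 1) (x := y) (y := x)
    (fun z _ => (ph_deriv z).hasDerivWithinAt) (fun z _ => ph_deriv_le z) convex_univ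
    (mem_univ _) (mem_univ _)
  rwa [one_mul, Real.norm_eq_abs, Real.norm_eq_abs] at h

theorem ph_int : Integrable ph := by
  have h : ph = fun x => c0 * Real.exp (-(1 / 4) * x ^ 2) := by
    funext x
    rw [ph_eq]
    congr 2
    ring
  rw [h]
  exact (integrable_exp_neg_mul_sq (by norm_num)).const_mul c0

theorem ph_lim : Tendsto ph atTop (𝓝 0) := by
  have h : ph = fun x => c0 * Real.exp (-(x ^ 2 / 4)) := funext ph_eq
  rw [h]
  have h1 : Tendsto (fun x : ℝ => -(x ^ 2 / 4)) atTop atBot := by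
    refine tendsto_neg_atTop_atBot.comp ?_
    exact (tendsto_pow_atTop two_ne_zero).atTop_div_const (by norm_num)
  have h2 := (Real.tendsto_exp_atBot.comp h1).const_mul c0
  rw [mul_zero] at h2
  exact h2

/-- the squarefree numbers -/
noncomputable def sf (n : ℕ) : ℝ := (((ArithmeticFunction.moebius (n + 1) : ℤ) : ℝ)) ^ 2

theorem sf_nonneg (n : ℕ) : 0 ≤ sf n := sq_nonneg _

theorem sf_le (n : ℕ) : sf n ≤ 1 := by
  unfold sf
  have h := ArithmeticFunction.abs_moebius_le_one (n := n + 1)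
  have h1 : |((ArithmeticFunction.moebius (n + 1) : ℤ) : ℝ)| ≤ 1 := by exact_mod_cast h
  rw [← sq_abs]
  exact pow_le_one₀ (abs_nonneg _) h1

theorem sf_err (N : ℕ) : |EE sf (6 / Real.pi ^ 2) N| ≤ 5 * √N :=
  Pool.Agent.Q163.GC.QQ_bound N

theorem AA_eq (v : ℝ) : AA 2 v = ∑' n : ℕ, sf n * HH ph v n := by
  unfold AA
  have hz : cf 2 v 0 ^ 2 = 0 := by
    unfold cf
    simp
  have ht : ∀ n : ℕ, cf 2 v (n + 1) ^ 2 = sf n * HH ph v n := by
    intro n
    have p0 : (0 : ℝ) < (n : ℝ) + 1 := by positivity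
    have h1 : (((n : ℝ) + 1) ^ (-(1 / 2) : ℝ)) ^ 2 = 1 / ((n : ℝ) + 1) := by
      rw [← Real.rpow_natCast, ← Real.rpow_mul p0.le]
      norm_num
      rw [Real.rpow_neg_one]
    unfold cf sf HH ph lo
    push_cast
    rw [mul_pow, mul_pow, h1]
    ring
  have hinj : Function.Injective (Nat.succ) := Nat.succ_injective
  have hsupp : Function.support (fun n : ℕ => cf 2 v n ^ 2) ⊆ Set.range Nat.succ := by
    intro n hn
    cases n with
    | zero => exact absurd hz hn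
    | succ k => exact ⟨k, rfl⟩
  rw [← hinj.tsum_eq hsupp]
  exact tsum_congr ht

/-- JOB AAL -/
theorem aal_lim : Tendsto (AA 2) atTop (𝓝 (6 / Real.pi ^ 2 * ∫ x, ph x)) := by
  have h := main ph_nonneg ph_le ph_lip ph_int ph_lim sf_nonneg sf_le sf_err
  exact h.congr fun v => (AA_eq v).symm

theorem aal (_h : J_DDB) : J_AAL := ⟨_, aal_lim⟩

end Pool.Agent.Q123.AL
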